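import Pool.Agent.TKS.MN
import Pool.Agent.LKA.App
import Pool.Agent.LKB.Low
import Pool.Agent.K3P.SixThirteen
import Pool.Agent.K4N.Word2

/-!
# The half-integer levels of the minimum 2-density

`M(m, r) ≤ (k + 1) / 2` if and only if `(k + 1) m ≤ (k ^ 2 + k + 2) (r - 1)`, for all `k ≥ 1`, `r ≥ 2`
and `m`; just below this threshold `M(m, r)` is exactly `(k + 1) / 2`, and above it there is a lower
bound, which for `k = 3` is the exact value in two ranges.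
-/

namespace Pool.Agent.Results.MP_303581_co.LevelSharp

open Pool.Agent.TwoDens

theorem lower (k m s : ℕ) (hk : 3 ≤ k) (hs : 1 ≤ s)
    (h : (3 * k ^ 2 - 3 * k + 2) * s ≤ 3 * (k - 1) * m + 2 * k) :
    ((k : ℝ) + 1) / 2 ≤ minTwoDensity m (s + 1) := by
  obtain ⟨l, rfl⟩ : ∃ l, k = l + 3 := ⟨k - 3, by omega⟩
  have e1 : 3 * (l + 3) ^ 2 - 3 * (l + 3) + 2 = 3 * l ^ 2 + 15 * l + 20 := by
    have : 3 * (l + 3) ^ 2 = 3 * l ^ 2 + 15 * l + 18 + 3 * (l + 3) := by ring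
    omega
  have e2 : l + 3 - 1 = l + 2 := by omega
  rw [e1, e2] at h
  have hm : 3 ≤ m := by
    by_contra hcon
    have h1 : m ≤ 2 := by omega
    have h2 : 3 * (l + 2) * m ≤ 3 * (l + 2) * 2 := Nat.mul_le_mul_left _ h1
    have h3 : (3 * l ^ 2 + 15 * l + 20) * 1 ≤ (3 * l ^ 2 + 15 * l + 20) * s :=
      Nat.mul_le_mul_left _ hs
    nlinarith
  refine le_trans (le_min le_rfl ?_) (TS.lower_bound (l + 3) m s hk hm hs)
  have hm' : (3 : ℝ) ≤ m := by exact_mod_cast hm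
  have h' : (3 * (l : ℝ) ^ 2 + 15 * l + 20) * s ≤ 3 * (l + 2) * m + 2 * (l + 3) := by
    exact_mod_cast h
  push_cast
  rw [div_le_div_iff₀ (by norm_num) (by linarith)]
  nlinarith

/-- `M(m, s + 1) = 2` -/
theorem two (m s : ℕ) (hs : 1 ≤ s) (h1 : 13 * s ≤ 4 * m + 3) (h2 : 2 * m ≤ 7 * s) :
    minTwoDensity m (s + 1) = 2 := by
  refine le_antisymm ?_ (K3P.two_le m s hs h1)
  have h := Pool.Agent.LKA.upper (k := 3) (m := m) (s := s) (by norm_num) (by omega)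
  norm_num at h
  exact h

/-- above the level `2` -/
theorem above (m s : ℕ) (hs : 1 ≤ s) (h1 : 7 * s < 2 * m)
    (h : 13 * m + 2 ≤ 49 * s ∨ (42 * s ≤ 11 * m + 2 ∧ 20 * m + 4 ≤ 77 * s)) :
    minTwoDensity m (s + 1) = 2 + (2 * (m : ℝ) - 7 * s) / ((m : ℝ) - 2) := by
  obtain ⟨i, rfl⟩ : ∃ i, m = 3 * s + i := ⟨m - 3 * s, by omega⟩
  have hup : minTwoDensity (3 * s + i) (s + 1) ≤ 2 + (2 * (i : ℝ) - s) / (3 * s + i - 2) := by
    rcases h with h | ⟨h2, h3⟩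
    · exact K4N.upper s i (by omega) (by omega)
    · exact K4N.upper2 s i (by omega) (by omega)
  refine le_antisymm ?_ ?_
  · refine hup.trans (le_of_eq ?_)
    push_cast
    ring
  · refine le_trans (le_of_eq ?_) (Pool.Agent.LKB.low (k := 3) (m := 3 * s + i) (s := s)
      (by norm_num) hs (by omega))
    have h3 : (0 : ℝ) < 3 * s + i - 2 := by
      have : (2 : ℝ) < ((3 * s + i : ℕ) : ℝ) := by exact_mod_cast (by omega : 2 < 3 * s + i)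
      push_cast at this
      linarith
    push_cast
    field_simp
    ring

/-- the case `k = 3` -/
theorem three (m s : ℕ) (hs : 1 ≤ s) (h : (13 * s ≤ 4 * m + 3 ∧ 13 * m + 2 ≤ 49 * s) ∨
    (42 * s ≤ 11 * m + 2 ∧ 20 * m + 4 ≤ 77 * s)) :
    minTwoDensity m (s + 1) = 2 + max 0 (2 * (m : ℝ) - 7 * s) / ((m : ℝ) - 2) := by
  rcases Nat.lt_or_ge (7 * s) (2 * m) with h1 | h1
  · have h2 : (7 : ℝ) * s < 2 * m := by exact_mod_cast h1
    rw [max_eq_right (by linarith)]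
    exact above m s hs h1 (h.imp And.right id)
  · have h2 : (2 : ℝ) * m ≤ 7 * s := by exact_mod_cast h1
    rw [max_eq_left (by linarith), zero_div, add_zero]
    exact two m s hs (by omega) h1

/-- Let `s ≥ 1` (that is `r = s + 1 ≥ 2`) and `m` be natural numbers.
* For `k ≥ 1`: `M(m, s + 1) ≤ (k + 1) / 2` if and only if `(k + 1) m ≤ (k ^ 2 + k + 2) s`.
* For `k ≥ 3`, if `(3 k ^ 2 - 3 k + 2) s ≤ 3 (k - 1) m + 2 k` and `(k + 1) m ≤ (k ^ 2 + k + 2) s`,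
  then `M(m, s + 1) = (k + 1) / 2`.
* For `k ≥ 2` and `(k + 1) m ≥ (k ^ 2 + k + 2) s`:
  `M(m, s + 1) ≥ (k + 1) / 2 + ((k + 1) m - (k ^ 2 + k + 2) s) / (2 (m - 2))`.
* For `k = 3` this bound is attained, and the value `2` is taken on a longer interval: if
  `13 s ≤ 4 m + 3` and `13 m + 2 ≤ 49 s`, or `42 s ≤ 11 m + 2` and `20 m + 4 ≤ 77 s`, then
  `M(m, s + 1) = 2 + max (0, 2 m - 7 s) / (m - 2)`. -/
theorem result (m s : ℕ) (hs : 1 ≤ s) :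
    (∀ k : ℕ, 1 ≤ k →
      (minTwoDensity m (s + 1) ≤ ((k : ℝ) + 1) / 2 ↔ (k + 1) * m ≤ (k ^ 2 + k + 2) * s)) ∧
    (∀ k : ℕ, 3 ≤ k → (3 * k ^ 2 - 3 * k + 2) * s ≤ 3 * (k - 1) * m + 2 * k →
      (k + 1) * m ≤ (k ^ 2 + k + 2) * s → minTwoDensity m (s + 1) = ((k : ℝ) + 1) / 2) ∧
    (∀ k : ℕ, 2 ≤ k → (k ^ 2 + k + 2) * s ≤ (k + 1) * m →
      ((k : ℝ) + 1) / 2 + (((k : ℝ) + 1) * m - ((k : ℝ) ^ 2 + k + 2) * s) / (2 * ((m : ℝ) - 2)) ≤
        minTwoDensity m (s + 1)) ∧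
    ((13 * s ≤ 4 * m + 3 ∧ 13 * m + 2 ≤ 49 * s) ∨ (42 * s ≤ 11 * m + 2 ∧ 20 * m + 4 ≤ 77 * s) →
      minTwoDensity m (s + 1) = 2 + max 0 (2 * (m : ℝ) - 7 * s) / ((m : ℝ) - 2)) :=
  ⟨fun _ hk => Pool.Agent.LKA.level hk hs,
    fun k hk h1 h2 =>
      le_antisymm (Pool.Agent.LKA.upper (by omega) h2) (lower k m s hk hs h1),
    fun _ hk h => Pool.Agent.LKB.low hk hs h, three m s hs⟩

end Pool.Agent.Results.MP_303581_co.LevelSharp
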