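import Pool.Agent.UHX.LowFin
import Pool.Agent.UBX.Fin
import Pool.Agent.TwoDens.Star3
import Pool.Agent.LHA.EQ

open Finset

namespace Pool.Agent.Results.MP_303581_co.NonzeroResidues

open Pool.Agent.TwoDens

/-- the number `q`, for `δ = r - 1 - 2 t` -/
def q (δ t : ℕ) : ℕ := min (1 + (3 * t - 2) / (2 * δ)) (2 + (t - 2) / δ)

/-- the borderline pairs `(δ, t)` -/
def Borderline (δ t : ℕ) : Prop :=
  2 ≤ δ ∧ (3 * t = 2 * δ + 2 ∨ 3 * t = 4 * δ + 2 ∨ (3 * t = 4 * δ + 3 ∧ 3 ∣ δ ∧ 6 ≤ δ) ∨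
    (2 * δ + 2 ≤ t ∧ δ ∣ t - 2) ∨ (δ = 2 ∧ t = 4) ∨ (δ = 3 ∧ t = 5))

private theorem q_facts {δ t : ℕ} (hδ : 1 ≤ δ) : ∃ a b : ℕ, q δ t = min (1 + a) (2 + b) ∧
    2 * δ * a ≤ 3 * t - 2 ∧ 3 * t - 2 < 2 * δ * (a + 1) ∧ δ * b ≤ t - 2 ∧ t - 2 < δ * (b + 1) :=
  ⟨(3 * t - 2) / (2 * δ), (t - 2) / δ, rfl, Nat.mul_div_le _ _,
    Nat.lt_mul_div_succ _ (by omega), Nat.mul_div_le _ _, Nat.lt_mul_div_succ _ (by omega)⟩

private theorem q_low {δ t : ℕ} (hδ : 1 ≤ δ) (ht : 1 ≤ t) : LOK δ t (q δ t) := by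
  obtain ⟨a, b, hq, h1, h2, h3, h4⟩ := q_facts (δ := δ) (t := t) hδ
  rw [hq]
  refine ⟨by omega, ?_⟩
  rcases le_total (1 + a) (2 + b) with h | h
  · rw [min_eq_left h]
    left
    have e : 2 * (1 + a) * δ = 2 * δ * (a + 1) := by ring
    rw [e]
    omega
  · rw [min_eq_right h]
    right
    have e : (2 + b - 1) * δ = δ * (b + 1) := by
      have : 2 + b - 1 = b + 1 := by omega
      rw [this, mul_comm]
    rw [e]
    omega

/-- the two upper bounds for `q` -/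
private theorem q_up {δ t : ℕ} (hδ : 1 ≤ δ) : 2 * δ * (q δ t - 1) ≤ 3 * t - 2 ∧ δ * (q δ t - 2) ≤ t - 2 := by
  obtain ⟨a, b, hq, h1, -, h3, -⟩ := q_facts (δ := δ) (t := t) hδ
  have ha : q δ t ≤ 1 + a := by rw [hq]; exact min_le_left _ _
  have hb : q δ t ≤ 2 + b := by rw [hq]; exact min_le_right _ _
  exact ⟨(Nat.mul_le_mul_left _ (Nat.sub_le_iff_le_add.2 (by rw [add_comm]; exact ha))).trans h1,
    (Nat.mul_le_mul_left _ (Nat.sub_le_iff_le_add.2 (by rw [add_comm]; exact hb))).trans h3⟩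

private theorem qa1 {t Q : ℕ} (hQ : 2 ≤ Q) (hb1 : 1 * (Q - 2) ≤ t - 2) (ha1 : 2 * 1 * (Q - 1) ≤ 3 * t - 2) : Q ≤ t := by
  omega

private theorem qa2 {t Q : ℕ} (hQ : 2 ≤ Q) (ha1 : 2 * 2 * (Q - 1) ≤ 3 * t - 2) (hb1 : 2 * (Q - 2) ≤ t - 2)
    (n1 : t ≠ 2) (n5 : t ≠ 4) (n4 : 6 ≤ t → t % 2 ≠ 0) : 2 * Q ≤ t + 1 := by
  rcases Nat.lt_or_ge t 6 with h | h
  · interval_cases t <;> omega
  · have := n4 h
    omega

private theorem qa3 {δ t : ℕ} (ha1 : 2 * δ * 1 ≤ 3 * t - 2) (n1 : 3 * t ≠ 2 * δ + 2) (h : 3 ≤ δ) : 2 * δ + 3 ≤ 3 * t := by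
  omega

private theorem qa4 {δ t : ℕ} (hδ : 3 ≤ δ) (ha1 : 2 * δ * 2 ≤ 3 * t - 2) (hb1 : δ * 1 ≤ t - 2) (n2 : 3 * t ≠ 4 * δ + 2)
    (n6 : ¬ (δ = 3 ∧ t = 5)) : 4 * δ + 3 ≤ 3 * t ∧ δ + 3 ≤ t := by
  have h1 : 4 * δ + 3 ≤ 3 * t := by omega
  refine ⟨h1, ?_⟩
  by_contra h2
  have h3 : t = δ + 2 := by omega
  subst h3
  have h4 : δ ≤ 3 := by omega
  exact n6 ⟨by omega, by omega⟩

private theorem q_high {δ t : ℕ} (hδ : 1 ≤ δ) (_ht : 1 ≤ t) (hB : ¬ Borderline δ t) :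
    q δ t = 1 ∨ (2 ≤ q δ t ∧ UBX.HOK δ t (q δ t)) := by
  obtain ⟨ha1, hb1⟩ := q_up (δ := δ) (t := t) hδ
  have hQ1 : 1 ≤ q δ t := le_min (Nat.le_add_right _ _) (Nat.le_trans (by norm_num) (Nat.le_add_right 2 _))
  generalize q δ t = Q at *
  rcases Nat.lt_or_ge Q 2 with hQ | hQ
  · left; omega
  right
  refine ⟨hQ, ?_⟩
  rcases Nat.lt_or_ge δ 2 with h6 | h6
  · left
    have h7 : δ = 1 := by omega
    subst h7
    exact ⟨rfl, qa1 hQ hb1 ha1⟩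
  have n1 : 3 * t ≠ 2 * δ + 2 := fun h5 => hB ⟨h6, Or.inl h5⟩
  have n2 : 3 * t ≠ 4 * δ + 2 := fun h5 => hB ⟨h6, Or.inr (Or.inl h5)⟩
  have n3 : ¬ (3 * t = 4 * δ + 3 ∧ 3 ∣ δ ∧ 6 ≤ δ) := fun h5 => hB ⟨h6, Or.inr (Or.inr (Or.inl h5))⟩
  have n4 : ¬ (2 * δ + 2 ≤ t ∧ δ ∣ t - 2) := fun h5 => hB ⟨h6, Or.inr (Or.inr (Or.inr (Or.inl h5)))⟩
  have n5 : ¬ (δ = 2 ∧ t = 4) := fun h5 => hB ⟨h6, Or.inr (Or.inr (Or.inr (Or.inr (Or.inl h5))))⟩
  have n6 : ¬ (δ = 3 ∧ t = 5) := fun h5 => hB ⟨h6, Or.inr (Or.inr (Or.inr (Or.inr (Or.inr h5))))⟩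
  clear hB
  rcases Nat.lt_or_ge δ 3 with h5 | h5
  · right; left
    have h7 : δ = 2 := by omega
    subst h7
    refine ⟨rfl, qa2 hQ ha1 hb1 ?_ ?_ ?_⟩
    · intro h
      exact n1 (by rw [h])
    · exact fun h => n5 ⟨rfl, h⟩
    · exact fun h h8 => n4 ⟨h, (Nat.dvd_sub (Nat.dvd_of_mod_eq_zero h8) (dvd_refl 2))⟩
  · rcases Nat.lt_or_ge Q 4 with h7 | h7
    · have h8 : Q = 2 ∨ Q = 3 := by omega
      rcases h8 with h8 | h8
      · subst h8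
        exact Or.inr (Or.inr (Or.inr (Or.inr ⟨h5, rfl, qa3 ha1 n1 h5⟩)))
      · subst h8
        obtain ⟨g1, g2⟩ := qa4 h5 ha1 hb1 n2 n6
        exact Or.inr (Or.inr (Or.inr (Or.inl ⟨h5, rfl, g1, g2, fun g3 => n3 ⟨g3.2.2, g3.2.1, g3.1⟩⟩)))
    · refine Or.inr (Or.inr (Or.inl ⟨h5, h7, ?_⟩))
      have h8 : δ * 2 ≤ δ * (Q - 2) := Nat.mul_le_mul_left _ (by omega)
      have h9 : δ * (Q - 2) ≠ t - 2 := by
        intro h10
        refine n4 ⟨?_, ⟨Q - 2, h10.symm⟩⟩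
        rw [h10] at h8
        clear n1 n2 n3 n4 n5 n6 ha1 hb1 h10
        omega
      rw [mul_comm]
      clear n1 n2 n3 n4 n5 n6 ha1
      generalize δ * (Q - 2) = X at *
      omega

private theorem q_two {δ t : ℕ} (hδ : 1 ≤ δ) (h : 2 * δ + 2 ≤ 3 * t) : 2 ≤ q δ t := by
  refine le_min ?_ (Nat.le_add_right _ _)
  have h1 : 1 ≤ (3 * t - 2) / (2 * δ) := by
    rw [Nat.one_le_div_iff (by omega)]
    omega
  omega

private theorem q_border {δ t : ℕ} (hB : Borderline δ t) :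
    2 ≤ q δ t ∧ (q δ t - 1 = 1 ∨ (2 ≤ q δ t - 1 ∧ UBX.HOK δ t (q δ t - 1))) := by
  obtain ⟨hδ2, hB⟩ := hB
  obtain ⟨ha1, hb1⟩ := q_up (δ := δ) (t := t) (by omega)
  have hBt : 2 * δ + 2 ≤ 3 * t := by
    rcases hB with h | h | ⟨h, -⟩ | ⟨h, -⟩ | ⟨h1, h2⟩ | ⟨h1, h2⟩ <;> omega
  have hQ2 : 2 ≤ q δ t := q_two (by omega) hBt
  clear hB hBt
  generalize q δ t = Q at *
  refine ⟨hQ2, ?_⟩
  rcases Nat.lt_or_ge Q 3 with h5 | h5
  · left; omega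
  right
  refine ⟨by omega, ?_⟩
  rcases Nat.lt_or_ge δ 3 with h6 | h6
  · right; left
    have h7 : δ = 2 := by omega
    subst h7
    refine ⟨rfl, ?_⟩
    omega
  · rcases Nat.lt_or_ge Q 5 with h7 | h7
    · have h8 : Q = 3 ∨ Q = 4 := by omega
      rcases h8 with h8 | h8
      · subst h8
        have g1 : 2 * δ + 3 ≤ 3 * t := by
          have : 2 * δ * 2 ≤ 3 * t - 2 := ha1
          clear ha1 hb1
          omega
        exact Or.inr (Or.inr (Or.inr (Or.inr ⟨h6, rfl, g1⟩)))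
      · subst h8
        have g1 : 2 * δ * 3 ≤ 3 * t - 2 := ha1
        have g2 : δ * 2 ≤ t - 2 := hb1
        clear ha1 hb1
        refine Or.inr (Or.inr (Or.inr (Or.inl ⟨h6, rfl, by omega, by omega, ?_⟩)))
        rintro ⟨-, -, h11⟩
        omega
    · refine Or.inr (Or.inr (Or.inl ⟨h6, by omega, ?_⟩))
      have h8 : δ * (Q - 2) = δ * (Q - 1 - 2) + δ := by
        have : Q - 2 = (Q - 1 - 2) + 1 := by omega
        rw [this]
        ring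
      rw [h8] at hb1
      rw [mul_comm]
      clear h8 ha1
      generalize δ * (Q - 1 - 2) = X at *
      omega

private theorem upper_one (s t : ℕ) (ht : 1 ≤ t) (hst : 2 * t < s) : ∃ K : ℕ, ∀ k : ℕ, K ≤ k →
    minTwoDensity (k * s - t) (s + 1) ≤ ((k : ℝ) + 1) / 2 - ((1 : ℕ) : ℝ) / ((k : ℝ) - 2) := by
  obtain ⟨p, rfl⟩ : ∃ p, s = p + 1 := ⟨s - 1, by omega⟩
  refine ⟨2 * p * p + 4 * p + 13, ?_⟩
  intro k hk
  have hk13 : 13 ≤ k := by omega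
  have hkR : (13 : ℝ) ≤ k := by exact_mod_cast hk13
  have hcard : k * (p + 1) = p * k + k := by ring
  rw [Nat.cast_one]
  have hc0 : (0 : ℝ) ≤ ((k : ℝ) + 1) / 2 - 1 / ((k : ℝ) - 2) := by
    have : 1 / ((k : ℝ) - 2) ≤ 1 := by
      rw [div_le_one (by linarith)]
      linarith
    linarith
  refine minTwoDensity_le hc0 (starG p k) ?_ ?_ ?_
  · simp only [Fintype.card_sum, Fintype.card_prod, Fintype.card_fin]
    omega
  · intro I hI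
    have := star_indep I hI
    omega
  · intro Y hY
    exact star_sparse (by omega) Y hY

private theorem upper_half (r t : ℕ) (ht : 1 ≤ t) (hr : 2 * t < r - 1) :
    ∃ K : ℕ, ∀ k : ℕ, K ≤ k →
      (¬ Borderline (r - 1 - 2 * t) t →
        minTwoDensity (k * (r - 1) - t) r =
          ((k : ℝ) + 1) / 2 - (q (r - 1 - 2 * t) t : ℝ) / ((k : ℝ) - 2)) ∧
      (Borderline (r - 1 - 2 * t) t →
        ((k : ℝ) + 1) / 2 - (q (r - 1 - 2 * t) t : ℝ) / ((k : ℝ) - 2) ≤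
          minTwoDensity (k * (r - 1) - t) r ∧
        minTwoDensity (k * (r - 1) - t) r ≤
          ((k : ℝ) + 1) / 2 - ((q (r - 1 - 2 * t) t : ℝ) - 1) / ((k : ℝ) - 2)) := by
  obtain ⟨s, rfl⟩ : ∃ s, r = s + 1 := ⟨r - 1, by omega⟩
  have hr1 : s + 1 - 1 = s := by omega
  rw [hr1] at hr
  rw [hr1]
  have hδ1 : 1 ≤ s - 2 * t := by omega
  obtain ⟨K1, hK1⟩ := low_main s t (q (s - 2 * t) t) ht hr (q_low hδ1 ht)
  by_cases hB : Borderline (s - 2 * t) t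
  · obtain ⟨hq2, hq⟩ := q_border hB
    have hup : ∃ K : ℕ, ∀ k : ℕ, K ≤ k → minTwoDensity (k * s - t) (s + 1) ≤
        ((k : ℝ) + 1) / 2 - ((q (s - 2 * t) t - 1 : ℕ) : ℝ) / ((k : ℝ) - 2) := by
      rcases hq with hq | ⟨hq, hH⟩
      · rw [hq]
        exact upper_one s t ht hr
      · exact UBX.upper_main s t _ hr hq hH
    obtain ⟨K2, hK2⟩ := hup
    refine ⟨K1 + K2, fun k hk => ⟨fun h => absurd hB h, fun _ => ⟨hK1 k (by omega), ?_⟩⟩⟩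
    have h1 := hK2 k (by omega)
    rwa [Nat.cast_sub (by omega : 1 ≤ q (s - 2 * t) t), Nat.cast_one] at h1
  · have hup : ∃ K : ℕ, ∀ k : ℕ, K ≤ k → minTwoDensity (k * s - t) (s + 1) ≤
        ((k : ℝ) + 1) / 2 - ((q (s - 2 * t) t : ℕ) : ℝ) / ((k : ℝ) - 2) := by
      rcases q_high hδ1 ht hB with hq | ⟨hq, hH⟩
      · rw [hq]
        exact upper_one s t ht hr
      · exact UBX.upper_main s t _ hr hq hH
    obtain ⟨K2, hK2⟩ := hup
    exact ⟨K1 + K2, fun k hk => ⟨fun _ => le_antisymm (hK2 k (by omega)) (hK1 k (by omega)),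
      fun h => absurd h hB⟩⟩

private theorem reduction (s t : ℕ) (hts : t < s) (hst : s ≤ 2 * t) (hd : s - t ∣ s) :
    ∃ K : ℕ, ∀ k : ℕ, K ≤ k →
      minTwoDensity (k * s - t) (s + 1) = minTwoDensity ((k * s - t) / (s - t)) (s / (s - t) + 1) := by
  obtain ⟨g, hg⟩ : ∃ g, s = t + g := ⟨s - t, by omega⟩
  have hg' : s - t = g := by omega
  have hg1 : 1 ≤ g := by omega
  rw [hg'] at hd ⊢
  obtain ⟨n, hn⟩ := hd
  obtain ⟨p, rfl⟩ : ∃ p, n = p + 1 := by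
    refine ⟨n - 1, ?_⟩
    rcases Nat.eq_zero_or_pos n with h | h
    · rw [h] at hn
      omega
    · omega
  have hs : s = (p + 1) * g := by rw [hn, mul_comm]
  have ht : t = p * g := by
    have h1 : t + g = p * g + g := by rw [← hg, hs]; ring
    omega
  have hp : 1 ≤ p := by
    by_contra h
    have h0 : p = 0 := by omega
    rw [h0] at ht
    omega
  obtain ⟨K, hK⟩ := LHA.eq_div p g hp hg1
  refine ⟨K, fun k hk => ?_⟩
  have h1 := hK k hk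
  have h2 : (k * s - t) / g = k * (p + 1) - p := by
    have h3 : k * s - t = g * (k * (p + 1) - p) := by
      rw [hs, ht, Nat.mul_sub]
      congr 1 <;> ring
    rw [h3, Nat.mul_div_cancel_left _ (by omega)]
  have h3 : s / g = p + 1 := by
    rw [hs, Nat.mul_div_cancel _ (by omega)]
  rw [h2, h3, hs, ht]
  exact h1

/-- For `1 ≤ t < r - 1` there are `C` and `K` such that for all `k ≥ K`:
if `t < (r-1)/2`, `δ = r - 1 - 2 t` and `(δ, t)` is not borderline: `M(k (r-1) - t, r) = (k+1)/2 - q/(k-2)`;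
if `t < (r-1)/2` and `(δ, t)` is borderline: `(k+1)/2 - q/(k-2) ≤ M(k (r-1) - t, r) ≤ (k+1)/2 - (q-1)/(k-2)`;
if `t ≥ (r-1)/2` and `p = ⌊t/(r-1-t)⌋`: `|M(k (r-1) - t, r) - ((k+1)/2 - √(p/(2 k)))| ≤ C/k`;
if `t ≥ (r-1)/2` and `g = r - 1 - t` divides `r - 1`: `M(m, r) = M(m/g, (r-1)/g + 1)` for `m = k (r-1) - t`. -/
theorem result (r t : ℕ) (ht : 1 ≤ t) (hr : t < r - 1) :
    ∃ C K : ℕ, ∀ k : ℕ, K ≤ k →
      (2 * t < r - 1 → ¬ Borderline (r - 1 - 2 * t) t →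
        minTwoDensity (k * (r - 1) - t) r =
          ((k : ℝ) + 1) / 2 - (q (r - 1 - 2 * t) t : ℝ) / ((k : ℝ) - 2)) ∧
      (2 * t < r - 1 → Borderline (r - 1 - 2 * t) t →
        ((k : ℝ) + 1) / 2 - (q (r - 1 - 2 * t) t : ℝ) / ((k : ℝ) - 2) ≤
          minTwoDensity (k * (r - 1) - t) r ∧
        minTwoDensity (k * (r - 1) - t) r ≤
          ((k : ℝ) + 1) / 2 - ((q (r - 1 - 2 * t) t : ℝ) - 1) / ((k : ℝ) - 2)) ∧
      (r - 1 ≤ 2 * t →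
        |minTwoDensity (k * (r - 1) - t) r -
          (((k : ℝ) + 1) / 2 - Real.sqrt (((t / (r - 1 - t) : ℕ) : ℝ) / (2 * k)))| ≤ (C : ℝ) / k) ∧
      (r - 1 ≤ 2 * t → r - 1 - t ∣ r - 1 →
        minTwoDensity (k * (r - 1) - t) r =
          minTwoDensity ((k * (r - 1) - t) / (r - 1 - t)) ((r - 1) / (r - 1 - t) + 1)) := by
  rcases Nat.lt_or_ge (2 * t) (r - 1) with h | h
  · obtain ⟨K, hK⟩ := upper_half r t ht h
    refine ⟨0, K, fun k hk => ⟨fun _ => (hK k hk).1, fun _ => (hK k hk).2, fun h2 => ?_, fun h2 => ?_⟩⟩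
    · omega
    · omega
  · obtain ⟨s, rfl⟩ : ∃ s, r = s + 1 := ⟨r - 1, by omega⟩
    have hs : s + 1 - 1 = s := by omega
    rw [hs] at hr h ⊢
    obtain ⟨C, K, hK⟩ := LHA.lower_half s t ht hr h
    by_cases hd : s - t ∣ s
    · obtain ⟨K', hK'⟩ := reduction s t hr h hd
      refine ⟨C, K + K', fun k hk => ⟨fun h2 => ?_, fun h2 => ?_, fun _ => hK k (by omega),
        fun _ _ => hK' k (by omega)⟩⟩
      · omega
      · omega
    · refine ⟨C, K, fun k hk => ⟨fun h2 => ?_, fun h2 => ?_, fun _ => hK k hk, fun _ h3 => absurd h3 hd⟩⟩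
      · omega
      · omega

end Pool.Agent.Results.MP_303581_co.NonzeroResidues
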