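import Pool.Agent.K3K.KL
import Pool.Agent.K3K.Low
import Pool.Agent.K3K.LowS
import Pool.Agent.K3A.Up
import Pool.Agent.K3A.Gq
import Pool.Agent.K3S.Un
import Pool.Agent.K3S.Piece
import Pool.Agent.K3T.Fin
import Pool.Agent.T3L.ChainB
import Pool.Agent.K3F.Line

/-!
# The case `k = 3` up to `36 (r - 1) / 13`, and a lower bound up to `m = 3 r - 4`

For `m = 2 s + i`, `s = r - 1`, `1 ≤ i ≤ 2 s / 3`:
`M(m, r) = 1 + min (2 d - 1) / (2 ⌊d s / i⌋ + d - 2)`, the minimum over `1 ≤ d ≤ i`.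
For `i ≤ s / 2` the minimum is evaluated in closed form.
For `2 s / 3 < i < s`: `M(m, r) ≥ (2 s + 3 i - 9) / (2 s + i - 6)`, with equality if
`13 i + 2 ≤ 10 s`, if `5 i + 2 = 4 s` and if `i = s - 1`.
-/

open Finset

namespace Pool.Agent.Results.MP_303581_co.TripleFormula

open Pool.Agent.TwoDens

/-- For all integers `s` and `i` with `1 ≤ i` and `3 i ≤ 2 s`, the number `M(2 s + i, s + 1)` is
the least of the numbers `1 + (2 d - 1) / (2 ⌊d s / i⌋ + d - 2)`, `1 ≤ d ≤ i`. If `2 i ≤ s`, it is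
`2 l / (2 l - 1)`, `l = ⌊s / i⌋`, for `3 i ≤ s`, and `(9 q - 5) / (7 q - 4)`,
`q = ⌊i / (3 i - s)⌋`, for `3 i > s`. If `2 s < 3 i` and `i < s`, it is at least
`(2 s + 3 i - 9) / (2 s + i - 6)`, with equality if `13 i + 2 ≤ 10 s` or `5 i + 2 = 4 s` or
`i = s - 1`. -/
theorem result (s i : ℕ) (hi : 1 ≤ i) :
    (3 * i ≤ 2 * s →
      IsLeast {x : ℝ | ∃ d : ℕ, 1 ≤ d ∧ d ≤ i ∧
          x = 1 + (2 * (d : ℝ) - 1) / (2 * ((d * s / i : ℕ) : ℝ) + d - 2)}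
        (minTwoDensity (2 * s + i) (s + 1))) ∧
    (2 * i ≤ s → minTwoDensity (2 * s + i) (s + 1) =
      if 3 * i ≤ s then 2 * ((s / i : ℕ) : ℝ) / (2 * ((s / i : ℕ) : ℝ) - 1)
      else (9 * ((i / (3 * i - s) : ℕ) : ℝ) - 5) / (7 * ((i / (3 * i - s) : ℕ) : ℝ) - 4)) ∧
    (2 * s < 3 * i → i < s →
      (2 * (s : ℝ) + 3 * i - 9) / (2 * (s : ℝ) + i - 6) ≤
        minTwoDensity (2 * s + i) (s + 1)) ∧
    (2 * s < 3 * i → (13 * i + 2 ≤ 10 * s ∨ 5 * i + 2 = 4 * s ∨ i + 1 = s) →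
      minTwoDensity (2 * s + i) (s + 1) =
        (2 * (s : ℝ) + 3 * i - 9) / (2 * (s : ℝ) + i - 6)) := by
  refine ⟨?_, ?_, fun h h2 => K3T.lower s i h h2, ?_⟩
  · intro h
    have hup : ∀ d : ℕ, 1 ≤ d → d ≤ i → minTwoDensity (2 * s + i) (s + 1) ≤ K3K.fS s i d :=
      fun d h1 h2 => K3S.upperS K3S.hE h1 h2 h
    obtain ⟨d0, hd0, hmin⟩ := Finset.exists_min_image (Finset.Icc 1 i) (K3K.fS s i)
      ⟨1, Finset.mem_Icc.2 ⟨le_rfl, hi⟩⟩
    rw [Finset.mem_Icc] at hd0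
    refine ⟨⟨d0, hd0.1, hd0.2, le_antisymm (hup d0 hd0.1 hd0.2) ?_⟩, ?_⟩
    · exact K3K.lowerS s i hi h (fun d h1 h2 => hmin d (Finset.mem_Icc.2 ⟨h1, h2⟩))
    · rintro x ⟨d, h1, h2, rfl⟩
      exact hup d h1 h2
  · intro h2
    have hK : K3.KThm (2 * s + i) := fun G _ Y => K3K.lemK G Y
    split_ifs with h3
    · refine le_antisymm ?_ (K3.lowerA s i hi h3 hK)
      exact K3A.upper s i (s / i) hi (Nat.div_pos (by omega) hi) (Nat.mul_div_le s i)
    · refine le_antisymm ?_ (K3.lowerB s i (by omega) h2 hK)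
      have hj : 0 < 3 * i - s := by omega
      exact K3A.Gq.upperG s i (i / (3 * i - s)) (Nat.div_pos (by omega) hj) (by omega)
        (Nat.div_mul_le_self i (3 * i - s))
  · intro h h2
    refine le_antisymm ?_ (K3T.lower s i h (by omega))
    rcases h2 with h2 | h2 | h2
    · exact K3U.upperH s i h h2
    · exact K3F.upperL s i h h2
    · subst h2
      have h3 : 3 ≤ i + 1 := by omega
      have h4 := T3.upper_line (i + 1) h3
      have h5 : 2 * (i + 1) + i = 3 * (i + 1) - 1 := by omega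
      rw [h5]
      refine h4.trans (le_of_eq ?_)
      push_cast
      congr 1 <;> ring

end Pool.Agent.Results.MP_303581_co.TripleFormula
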